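import Pool.Agent.H809R2.GI.Final

/-!
Grothendieck's inequality with arbitrary matrices against correlation matrices fails with the
Grothendieck constant, over `ℝ` and over `ℂ`. The definitions (`signNorm`, `IsGrothendieckBound`,
`KG`, `IsCorrelation`, `rankOneMax`, `CorrelationGrothendieck`) are in
`Pool/Agent/H809R2/GI/Defs.lean`. That `rankOneMax` is a maximum is
`Pool.Agent.H809R2.GI.rankOneMax_isGreatest`.
-/

set_option autoImplicit false

namespace Pool.Agent.Results.MP_aeebd3_an.CorrelationFails

open Pool.Agent.H809R2.GI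

/-- For `𝔽 = ℝ` and for `𝔽 = ℂ`, the Grothendieck constant `KG 𝔽` is the smallest admissible
constant in Grothendieck's inequality, and the inequality `|tr (B^* S)| ≤ KG 𝔽 max |tr (B^* Θ)|`
does not hold for all `k`, all `k × k` correlation matrices `S` over `𝔽` and all `k × k` matrices
`B` over `𝔽`. -/
theorem result :
    (IsLeast {K : ℝ | IsGrothendieckBound ℝ K} (KG ℝ) ∧ ¬ CorrelationGrothendieck ℝ) ∧
    (IsLeast {K : ℝ | IsGrothendieckBound ℂ K} (KG ℂ) ∧ ¬ CorrelationGrothendieck ℂ) :=
  ⟨main_real, main_complex⟩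

end Pool.Agent.Results.MP_aeebd3_an.CorrelationFails
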